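import Pool.Agent.TH334.OS.Asm

set_option autoImplicit false

/-!
# The endpoint orthonormal Strichartz estimate with Lorentz coefficients

For every `d ≥ 2`, with `p = (d+1)/d` and `q = (d+1)/(d-1)`,
`‖∑ j, λ j |e^{itΔ} f j|^2‖_{L^p_t L^q_x} ≤ C(d) ‖λ‖_{ℓ^{p,1}}`
for all orthonormal systems `(f j)` in `L²(ℝ^d)` and all `λ ∈ ℓ^{p,1}`.

Here `L2 d` is `L²(ℝ^d; ℂ)` and `U t` is the propagator `e^{itΔ}` on it: with Mathlib's Fourier
transform `𝓕` (kernel `exp(-2πi x·ξ)`), `𝓕 (U t f) = exp(-it|2πξ|²) 𝓕 f`.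
-/

open MeasureTheory Set Filter Topology
open scoped ENNReal NNReal

namespace Pool.Agent.Results.MP_dacecb_an.EndpointStrichartz

open Pool.Agent.TH334.OS

/-- the time exponent `p = (d+1)/d` -/
noncomputable def pexp (d : ℕ) : ℝ := ((d:ℝ) + 1) / d

/-- the space exponent `q = (d+1)/(d-1)` -/
noncomputable def qexp (d : ℕ) : ℝ := ((d:ℝ) + 1) / ((d:ℝ) - 1)

/-- `rearr lam n` is the `(n+1)`-st term of the decreasing rearrangement of `|lam j|`: the least
`s ≥ 0` such that at most `n` of the `|lam j|` are larger than `s` -/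
noncomputable def rearr {ι : Type} (lam : ι → ℂ) (n : ℕ) : ℝ≥0∞ :=
  sInf {s : ℝ≥0∞ | ({j | s < ‖lam j‖ₑ} : Set ι).encard ≤ n}

/-- the `ℓ^{α,1}` norm `∑_{n ≥ 1} n^{1/α - 1} lam*_n`, with values in `[0, ∞]` -/
noncomputable def lorentz {ι : Type} (α : ℝ) (lam : ι → ℂ) : ℝ≥0∞ :=
  ∑' n : ℕ, ENNReal.ofReal (((n:ℝ) + 1) ^ (1 / α - 1)) * rearr lam n

/-- the density `∑ j, lam j |e^{itΔ} f j|^2 (x)` -/
noncomputable def density {d : ℕ} {ι : Type} (f : ι → L2 d) (lam : ι → ℂ) (t : ℝ) (x : E d) : ℂ :=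
  ∑' j, lam j * ((‖U t (f j) x‖ ^ 2 : ℝ) : ℂ)

/-- the mixed norm `L^p_t L^q_x` -/
noncomputable def mixedNorm {d : ℕ} (p q : ℝ) (F : ℝ → E d → ℂ) : ℝ≥0∞ :=
  (∫⁻ t, (eLpNorm (F t) (ENNReal.ofReal q) volume) ^ p) ^ (1 / p)

/-- The estimate `(E_d)`: there is a constant `C` such that for every finite or countable
orthonormal system `f` and every `lam` in `ℓ^{p,1}`, the series defining the density converges
absolutely almost everywhere, its spatial norm is a measurable function of time, and its mixed norm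
is at most `C ‖lam‖_{ℓ^{p,1}}`. -/
def EndpointEstimate (d : ℕ) : Prop :=
  ∃ C : ℝ≥0, ∀ (ι : Type) [Countable ι] (f : ι → L2 d) (lam : ι → ℂ), Orthonormal ℂ f →
    lorentz (pexp d) lam < ∞ →
      (∀ᵐ t : ℝ, ∀ᵐ x : E d, Summable fun j => ‖lam j‖ * ‖U t (f j) x‖ ^ 2) ∧
      (Measurable fun t : ℝ => eLpNorm (density f lam t) (ENNReal.ofReal (qexp d)) volume) ∧
      mixedNorm (pexp d) (qexp d) (density f lam) ≤ C * lorentz (pexp d) lam

/-- The endpoint estimate holds in every dimension `d ≥ 2`. -/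
theorem result : ∀ d : ℕ, 2 ≤ d → EndpointEstimate d := by
  intro d hd
  have hd2 : (2:ℝ) ≤ d := by exact_mod_cast hd
  have hd0 : (0:ℝ) < d := by linarith
  have hq0 : 0 < qexp d := div_pos (by linarith) (by linarith)
  have hβ0 : 0 < ((d:ℝ) - 1) / d := div_pos (by linarith) hd0
  have hp0 : 0 < pexp d := div_pos (by linarith) hd0
  have hpinv : 1 / pexp d = (d:ℝ) / (d + 1) := by
    unfold pexp
    rw [one_div_div]
  have hqne : ENNReal.ofReal (qexp d) ≠ 0 := by
    rw [Ne, ENNReal.ofReal_eq_zero, not_le]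
    exact hq0
  refine ⟨(C1 d).toNNReal, ?_⟩
  intro ι _ f lam hf hlam
  set w : ι → ℝ≥0∞ := fun j => ‖lam j‖ₑ with hw
  have hLor : Lor ((d:ℝ) / (d + 1)) w = lorentz (pexp d) lam := by
    unfold Lor lorentz
    rw [hpinv]
    rfl
  have hB := mixed_dens hd f hf w
  rw [hLor] at hB
  -- the representative of the density
  have hrep : ∀ t : ℝ, ∀ᵐ x : E d, ∀ j, Gj (f j) (t, x) = U t (f j) x := by
    intro t
    rw [ae_all_iff]
    intro j
    exact Gj_ae (f j) t
  have hdens : ∀ t : ℝ, ∀ᵐ x : E d, dens f w (t, x) = ∑' j, ‖lam j‖ₑ * ‖U t (f j) x‖ₑ ^ 2 := by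
    intro t
    filter_upwards [hrep t] with x hx
    unfold dens
    exact tsum_congr fun j => by rw [hx j]
  have hCl : C1 d * lorentz (pexp d) lam ≠ ∞ := ENNReal.mul_ne_top (C1_ne_top d) hlam.ne
  refine ⟨?_, ?_, ?_⟩
  · -- absolute convergence
    have h1 : ∫⁻ t, (∫⁻ x, dens f w (t, x) ^ (((d:ℝ) + 1) / (d - 1))) ^ (((d:ℝ) - 1) / d) ≠ ∞ := by
      intro h
      rw [h, ENNReal.top_rpow_of_pos (by positivity)] at hB
      exact hCl (top_le_iff.1 hB)
    have hm : Measurable fun t => (∫⁻ x, dens f w (t, x) ^ (((d:ℝ) + 1) / (d - 1))) ^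
        (((d:ℝ) - 1) / d) :=
      (th_meas (((d:ℝ) + 1) / (d - 1)) _ (dens_meas f w)).pow_const _
    filter_upwards [ae_lt_top hm h1] with t ht
    have h2 : ∫⁻ x, dens f w (t, x) ^ (((d:ℝ) + 1) / (d - 1)) ≠ ∞ := by
      intro h
      rw [h, ENNReal.top_rpow_of_pos hβ0] at ht
      exact lt_irrefl _ ht
    have hm2 : Measurable fun x => dens f w (t, x) ^ (((d:ℝ) + 1) / (d - 1)) :=
      ((dens_meas f w).comp (measurable_const.prodMk measurable_id)).pow_const _
    filter_upwards [ae_lt_top hm2 h2, hdens t] with x hx hx2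
    have h3 : dens f w (t, x) ≠ ∞ := by
      intro h
      rw [h, ENNReal.top_rpow_of_pos (show 0 < ((d:ℝ) + 1) / (d - 1) from hq0)] at hx
      exact lt_irrefl _ hx
    rw [hx2] at h3
    have h4 := ENNReal.summable_toReal h3
    refine h4.congr fun j => ?_
    rw [ENNReal.toReal_mul, ENNReal.toReal_pow, toReal_enorm, toReal_enorm]
  · -- measurability
    set g : ℝ × E d → ℂ := fun p => ∑' j, lam j * ((‖Gj (f j) p‖ ^ 2 : ℝ) : ℂ) with hg
    have hgm : Measurable g := Measurable.tsum fun j =>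
      (Complex.measurable_ofReal.comp ((Gj_meas (f j)).norm.pow_const 2)).const_mul (lam j)
    have e : (fun t : ℝ => eLpNorm (density f lam t) (ENNReal.ofReal (qexp d)) volume) =
        fun t => (∫⁻ x, ‖g (t, x)‖ₑ ^ (ENNReal.ofReal (qexp d)).toReal) ^
          (1 / (ENNReal.ofReal (qexp d)).toReal) := by
      funext t
      rw [eLpNorm_eq_lintegral_rpow_enorm_toReal hqne ENNReal.ofReal_ne_top]
      congr 1
      refine lintegral_congr_ae ?_
      filter_upwards [hrep t] with x hx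
      have : density f lam t x = g (t, x) := by
        unfold density
        exact tsum_congr fun j => by rw [hx j]
      rw [this]
    rw [e]
    exact ((hgm.enorm.pow_const _).lintegral_prod_right').pow_const _
  · -- the bound
    have h1 : ∀ t : ℝ, (eLpNorm (density f lam t) (ENNReal.ofReal (qexp d)) volume) ^ (pexp d) ≤
        (∫⁻ x, dens f w (t, x) ^ (((d:ℝ) + 1) / (d - 1))) ^ (((d:ℝ) - 1) / d) := by
      intro t
      rw [eLpNorm_eq_lintegral_rpow_enorm_toReal hqne ENNReal.ofReal_ne_top,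
        ENNReal.toReal_ofReal hq0.le, ← ENNReal.rpow_mul]
      have e : 1 / qexp d * pexp d = ((d:ℝ) - 1) / d := by
        unfold qexp pexp
        have : (d:ℝ) - 1 ≠ 0 := by linarith
        field_simp
      rw [e]
      refine ENNReal.rpow_le_rpow (lintegral_mono_ae ?_) hβ0.le
      filter_upwards [hdens t] with x hx
      refine ENNReal.rpow_le_rpow ?_ hq0.le
      rw [hx]
      unfold density
      refine enorm_tsum_le_tsum_enorm.trans (le_of_eq (tsum_congr fun j => ?_))
      rw [enorm_mul]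
      congr 1
      rw [← ofReal_norm, Complex.norm_real, Real.norm_of_nonneg (sq_nonneg _),
        ENNReal.ofReal_pow (norm_nonneg _), ofReal_norm]
    unfold mixedNorm
    rw [hpinv, ENNReal.coe_toNNReal (C1_ne_top d)]
    exact (ENNReal.rpow_le_rpow (lintegral_mono h1) (by positivity)).trans hB

end Pool.Agent.Results.MP_dacecb_an.EndpointStrichartz
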